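import Mathlib

/-!
# A `σ`-closed topological Ramsey space with `𝔭_R < 𝔱_R`
-/

namespace Pool.Agent.Results.MP_fdc1ac_lc.PLessT

open Cardinal Set

section Defs

variable {R AR : Type}

/-- `a ⊑ b`: `a` is an initial segment of `b`. -/
def Initial (r : ℕ → R → AR) (a b : AR) : Prop :=
  ∃ A n m, n ≤ m ∧ r n A = a ∧ r m A = b

/-- The basic set `[a, B] = {A ≤ B : ∃ n, r_n(A) = a}`. -/
def Basic (le : R → R → Prop) (r : ℕ → R → AR) (a : AR) (B : R) : Set R :=
  {A | le A B ∧ ∃ n, r n A = a}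

/-- `depth_B(a) = n < ∞`, that is `n` is the least number with `a ≤_fin r_n(B)`. -/
def Depth (lef : AR → AR → Prop) (r : ℕ → R → AR) (B : R) (a : AR) (n : ℕ) : Prop :=
  IsLeast {n | lef a (r n B)} n

/-- Axiom A.1, together with the requirement that `AR` is the union of the sets
`AR_n = {r_n(A) : A ∈ R}`. -/
structure A1 (r : ℕ → R → AR) : Prop where
  surj : ∀ a, ∃ n A, r n A = a
  zero : ∀ A B, r 0 A = r 0 B
  ext : ∀ A B, A ≠ B → ∃ n, r n A ≠ r n B
  len : ∀ n m A B, r n A = r m B → n = m ∧ ∀ k < n, r k A = r k B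

/-- Axiom A.2. -/
structure A2 (le : R → R → Prop) (r : ℕ → R → AR) (lef : AR → AR → Prop) : Prop where
  refl : ∀ a, lef a a
  trans : ∀ a b c, lef a b → lef b c → lef a c
  fin : ∀ b, {a | lef a b}.Finite
  le_iff : ∀ A B, le A B ↔ ∀ n, ∃ m, lef (r n A) (r m B)
  initial : ∀ a b c, Initial r a b → lef b c → ∃ d, Initial r d c ∧ lef a d

/-- Axiom A.3. -/
structure A3 (le : R → R → Prop) (r : ℕ → R → AR) (lef : AR → AR → Prop) : Prop where
  first : ∀ B a n, Depth lef r B a n → ∀ A ∈ Basic le r (r n B) B, (Basic le r a A).Nonempty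
  second : ∀ B a n, Depth lef r B a n → ∀ A, le A B → (Basic le r a A).Nonempty →
    ∃ A' ∈ Basic le r (r n B) B, (Basic le r a A').Nonempty ∧ Basic le r a A' ⊆ Basic le r a A

/-- Axiom A.4. -/
def A4 (le : R → R → Prop) (r : ℕ → R → AR) (lef : AR → AR → Prop) : Prop :=
  ∀ B a n, Depth lef r B a n → ∀ k, a ∈ Set.range (r k) → ∀ O ⊆ Set.range (r (k + 1)),
    ∃ A ∈ Basic le r (r n B) B, r (k + 1) '' Basic le r a A ⊆ O ∨ r (k + 1) '' Basic le r a A ⊆ Oᶜ

/-- `(R, ≤, r)` is a topological Ramsey space. -/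
structure TopRamsey (le : R → R → Prop) (r : ℕ → R → AR) : Prop where
  nonempty : Nonempty R
  refl : ∀ A, le A A
  trans : ∀ A B C, le A B → le B C → le A C
  a1 : A1 r
  a234 : ∃ lef : AR → AR → Prop, A2 le r lef ∧ A3 le r lef ∧ A4 le r lef
  closed : letI : TopologicalSpace AR := ⊥
    IsClosed (Set.range fun (A : R) (n : ℕ) => r n A)

/-- The separative order of a quasi-order: every extension of `A` is compatible with `B`. -/
def SepLE (le : R → R → Prop) (A B : R) : Prop :=
  ∀ C, le C A → ∃ D, le D C ∧ le D B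

/-- The equivalence relation of the separative quotient. -/
def sepSetoid (le : R → R → Prop) (hr : ∀ A, le A A) (ht : ∀ A B C, le A B → le B C → le A C) :
    Setoid R where
  r A B := SepLE le A B ∧ SepLE le B A
  iseqv := by
    have tr : ∀ A B C, SepLE le A B → SepLE le B C → SepLE le A C := by
      intro A B C h1 h2 D hD
      obtain ⟨E, hE1, hE2⟩ := h1 D hD
      obtain ⟨G, hG1, hG2⟩ := h2 E hE2
      exact ⟨G, ht _ _ _ hG1 hE1, hG2⟩
    exact ⟨fun A => ⟨fun C hC => ⟨C, hr C, hC⟩, fun C hC => ⟨C, hr C, hC⟩⟩,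
      fun h => ⟨h.2, h.1⟩, fun h1 h2 => ⟨tr _ _ _ h1.1 h2.1, tr _ _ _ h2.2 h1.2⟩⟩

/-- The order of the separative quotient. -/
def quotLE (le : R → R → Prop) (hr : ∀ A, le A A) (ht : ∀ A B C, le A B → le B C → le A C)
    (x y : Quotient (sepSetoid le hr ht)) : Prop :=
  ∃ A B, x = Quotient.mk (sepSetoid le hr ht) A ∧ y = Quotient.mk (sepSetoid le hr ht) B ∧
    SepLE le A B

/-- The two quasi-orders have isomorphic separative quotients. -/
def SameQuotient (le les : R → R → Prop) : Prop :=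
  ∃ (h1 : ∀ A, le A A) (h2 : ∀ A B C, le A B → le B C → le A C)
    (h3 : ∀ A, les A A) (h4 : ∀ A B C, les A B → les B C → les A C)
    (e : Quotient (sepSetoid le h1 h2) ≃ Quotient (sepSetoid les h3 h4)),
    ∀ x y, quotLE le h1 h2 x y ↔ quotLE les h3 h4 (e x) (e y)

/-- `(R, ≤, ≤*, r)` is a `σ`-closed topological Ramsey space. -/
structure SigmaClosedTopRamsey (le les : R → R → Prop) (r : ℕ → R → AR) : Prop where
  top : TopRamsey le r
  refl : ∀ A, les A A
  trans : ∀ A B C, les A B → les B C → les A C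
  coarsens : ∀ A B, le A B → les A B
  sigma : ∀ A : ℕ → R, (∀ n, les (A (n + 1)) (A n)) → ∃ B, ∀ n, les B (A n)
  same : SameQuotient le les

/-- `Y` is a pseudointersection of `F`. -/
def Pseudo (les : R → R → Prop) (F : Set R) (Y : R) : Prop := ∀ X ∈ F, les Y X

/-- Every finite subfamily of `F` has a pseudointersection. -/
def SFIP (les : R → R → Prop) (F : Set R) : Prop :=
  ∀ G ⊆ F, G.Finite → ∃ Y, Pseudo les G Y

/-- `F` is a tower. -/
def Tower (les : R → R → Prop) (F : Set R) : Prop :=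
  (∀ X ∈ F, ∀ Y ∈ F, les X Y ∨ les Y X) ∧ ¬ ∃ Y, Pseudo les F Y

/-- `𝔭_R`. -/
noncomputable def pNum (les : R → R → Prop) : Cardinal.{0} :=
  sInf {κ | ∃ F : Set R, #F = κ ∧ SFIP les F ∧ ¬ ∃ Y, Pseudo les F Y}

/-- `𝔱_R`. -/
noncomputable def tNum (les : R → R → Prop) : Cardinal.{0} :=
  sInf {κ | ∃ F : Set R, #F = κ ∧ Tower les F}

end Defs

/-! ### The example -/

/-- The labels: `(B, n)` and `(C, m)`. -/
inductive Lab : Type
  | B (n : ℕ)
  | C (m : ℕ)

/-- The order of the labels. -/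
def LLe (l l' : Lab) : Prop := l = l' ∨ ∃ m n, l = Lab.C m ∧ l' = Lab.B n ∧ n ≤ m

theorem LLe.refl (l : Lab) : LLe l l := Or.inl rfl

theorem LLe.trans {a b c : Lab} (h1 : LLe a b) (h2 : LLe b c) : LLe a c := by
  rcases h1 with rfl | ⟨m, n, h1, h3, h4⟩
  · exact h2
  · rcases h2 with rfl | ⟨m', n', h5, h6, h7⟩
    · exact Or.inr ⟨m, n, h1, h3, h4⟩
    · rw [h3] at h5; cases h5

theorem LLe.of_C {a : Lab} {m : ℕ} (h : LLe a (Lab.C m)) : a = Lab.C m := by
  rcases h with h | ⟨_, _, _, h, _⟩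
  · exact h
  · cases h

theorem LLe.of_B {a : Lab} {m : ℕ} (h : LLe (Lab.B m) a) : a = Lab.B m := by
  rcases h with h | ⟨_, _, h, _, _⟩
  · exact h.symm
  · cases h

/-- The members of the space: a label and an infinite subset of `ℕ`, given by its increasing
enumeration. -/
@[ext] structure Pt : Type where
  lab : Lab
  f : ℕ → ℕ
  mono : StrictMono f
  low : ∀ m, lab = Lab.C m → m ≤ f 0

/-- The order `≤`. -/
def Le (A B : Pt) : Prop := LLe A.lab B.lab ∧ Set.range A.f ⊆ Set.range B.f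

/-- The order `≤*`. -/
def Les (A B : Pt) : Prop := LLe A.lab B.lab ∧ (Set.range A.f \ Set.range B.f).Finite

/-- The approximations, first version. -/
def apx : ℕ → Pt → Option (Lab × List ℕ)
  | 0, _ => none
  | k + 1, A => some (A.lab, (List.range (k + 1)).map A.f)

/-- The set of all approximations. -/
abbrev Apx : Type := {a : Option (Lab × List ℕ) // ∃ n A, apx n A = a}

/-- The approximations. -/
def rr (n : ℕ) (A : Pt) : Apx := ⟨apx n A, n, A, rfl⟩

/-- The order of the approximations. -/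
def lef0 : Option (Lab × List ℕ) → Option (Lab × List ℕ) → Prop
  | none, none => True
  | some a, some b => LLe a.1 b.1 ∧ a.2 ⊆ b.2 ∧ a.2.getLast? = b.2.getLast?
  | _, _ => False

/-- The order `≤_fin`. -/
def lef (a b : Apx) : Prop := lef0 a.1 b.1

theorem apx_succ (k : ℕ) (A : Pt) : apx (k + 1) A = some (A.lab, (List.range (k + 1)).map A.f) :=
  rfl

theorem getLast_map (k : ℕ) (f : ℕ → ℕ) : ((List.range (k + 1)).map f).getLast? = some (f k) := by
  simp [List.range_succ]

theorem lef_succ {k j : ℕ} {A B : Pt} : lef (rr (k + 1) A) (rr (j + 1) B) ↔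
    LLe A.lab B.lab ∧ (∀ i ≤ k, A.f i ∈ Set.range B.f) ∧ A.f k = B.f j := by
  show lef0 (apx (k + 1) A) (apx (j + 1) B) ↔ _
  rw [apx_succ, apx_succ]
  show LLe A.lab B.lab ∧ _ ∧ _ ↔ _
  simp only [getLast_map, Option.some.injEq]
  refine and_congr_right fun _ => ?_
  constructor
  · rintro ⟨h1, h2⟩
    refine ⟨fun i hi => ?_, h2⟩
    have : A.f i ∈ (List.range (k + 1)).map A.f := List.mem_map.2 ⟨i, by simpa using by omega, rfl⟩
    obtain ⟨a, _, ha⟩ := List.mem_map.1 (h1 this)
    exact ⟨a, ha⟩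
  · rintro ⟨h1, h2⟩
    refine ⟨fun x hx => ?_, h2⟩
    obtain ⟨i, hi, rfl⟩ := List.mem_map.1 hx
    simp only [List.mem_range] at hi
    obtain ⟨a, ha⟩ := h1 i (by omega)
    refine List.mem_map.2 ⟨a, ?_, ha⟩
    simp only [List.mem_range]
    have h3 : A.f i ≤ A.f k := A.mono.monotone (by omega)
    rw [← ha, h2, B.mono.le_iff_le] at h3
    omega

theorem lef_zero {A B : Pt} : lef (rr 0 A) (rr 0 B) := trivial

theorem not_lef_zero_succ {j : ℕ} {A B : Pt} : ¬ lef (rr 0 A) (rr (j + 1) B) := id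

theorem not_lef_succ_zero {j : ℕ} {A B : Pt} : ¬ lef (rr (j + 1) A) (rr 0 B) := id

theorem rr_eq {n m : ℕ} {A B : Pt} : rr n A = rr m B ↔ apx n A = apx m B :=
  ⟨fun h => congrArg Subtype.val h, fun h => Subtype.ext h⟩

theorem rr_succ_inj {k : ℕ} {A B : Pt} :
    rr (k + 1) A = rr (k + 1) B ↔ A.lab = B.lab ∧ ∀ i ≤ k, A.f i = B.f i := by
  rw [rr_eq, apx_succ, apx_succ, Option.some.injEq, Prod.mk.injEq]
  refine and_congr_right fun _ => ?_
  rw [List.map_inj_left]
  simp

theorem rr_len {n m : ℕ} {A B : Pt} (h : rr n A = rr m B) : n = m := by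
  rw [rr_eq] at h
  cases n with
  | zero =>
    cases m with
    | zero => rfl
    | succ m => cases h
  | succ n =>
    cases m with
    | zero => cases h
    | succ m =>
      rw [apx_succ, apx_succ, Option.some.injEq, Prod.mk.injEq] at h
      simpa using congrArg List.length h.2

theorem a1_rr : A1 rr where
  surj := by
    rintro ⟨a, n, A, h⟩
    exact ⟨n, A, Subtype.ext h⟩
  zero _ _ := rfl
  ext A B hAB := by
    by_contra h
    push Not at h
    apply hAB
    have h1 := fun k => rr_succ_inj.1 (h (k + 1))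
    exact Pt.ext (h1 0).1 (funext fun k => (h1 k).2 k le_rfl)
  len n m A B h := by
    have hnm := rr_len h
    subst hnm
    refine ⟨rfl, fun k hk => ?_⟩
    cases k with
    | zero => rfl
    | succ k =>
      cases n with
      | zero => omega
      | succ n =>
        rw [rr_succ_inj] at h ⊢
        exact ⟨h.1, fun i hi => h.2 i (by omega)⟩

/-- The first `n` values of `g` followed by the values of `h`. -/
def glue (n : ℕ) (g h : ℕ → ℕ) (i : ℕ) : ℕ := if i < n then g i else h (i - n)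

theorem glue_mono {n : ℕ} {g h : ℕ → ℕ} (hg : StrictMono g) (hh : StrictMono h)
    (hn : ∀ i < n, g i < h 0) : StrictMono (glue n g h) := by
  apply strictMono_nat_of_lt_succ
  intro i
  unfold glue
  split_ifs with h1 h2 h3
  · exact hg (by omega)
  · exact (hn i h1).trans_le (hh.monotone (Nat.zero_le _))
  · omega
  · exact hh (by omega)

theorem glue_lt {n i : ℕ} {g h : ℕ → ℕ} (hi : i < n) : glue n g h i = g i := if_pos hi

theorem glue_ge {n i : ℕ} {g h : ℕ → ℕ} (hi : n ≤ i) : glue n g h i = h (i - n) :=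
  if_neg (by omega)

/-- An infinite set has an increasing enumeration. -/
theorem exists_enum {X : Set ℕ} (hX : X.Infinite) : ∃ h : ℕ → ℕ, StrictMono h ∧ Set.range h = X :=
  ⟨Nat.nth (· ∈ X), Nat.nth_strictMono hX, Nat.range_nth_of_infinite hX⟩

theorem infinite_range {A : Pt} : (Set.range A.f).Infinite :=
  Set.infinite_range_of_injective A.mono.injective

theorem exists_rr (a : Apx) : (∃ A, a = rr 0 A) ∨ ∃ k A, a = rr (k + 1) A := by
  obtain ⟨n, A, rfl⟩ := a1_rr.surj a
  cases n with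
  | zero => exact Or.inl ⟨A, rfl⟩
  | succ n => exact Or.inr ⟨n, A, rfl⟩

theorem le_refl' (A : Pt) : Le A A := ⟨LLe.refl _, subset_rfl⟩

theorem le_trans' {A B C : Pt} (h1 : Le A B) (h2 : Le B C) : Le A C :=
  ⟨h1.1.trans h2.1, h1.2.trans h2.2⟩

/-- The members of an approximation are above the label. -/
theorem low_le {A : Pt} {m : ℕ} (h : A.lab = Lab.C m) (i : ℕ) : m ≤ A.f i :=
  (A.low m h).trans (A.mono.monotone (Nat.zero_le _))

theorem a2_rr : A2 Le rr lef where
  refl a := by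
    rcases exists_rr a with ⟨A, rfl⟩ | ⟨k, A, rfl⟩
    · exact lef_zero
    · exact lef_succ.2 ⟨LLe.refl _, fun i _ => ⟨i, rfl⟩, rfl⟩
  trans a b c h1 h2 := by
    rcases exists_rr a with ⟨A, rfl⟩ | ⟨k, A, rfl⟩ <;>
      rcases exists_rr b with ⟨B, rfl⟩ | ⟨j, B, rfl⟩ <;>
      rcases exists_rr c with ⟨C, rfl⟩ | ⟨l, C, rfl⟩
    · exact lef_zero
    · exact (not_lef_zero_succ h2).elim
    · exact lef_zero
    · exact (not_lef_zero_succ h1).elim
    · exact (not_lef_succ_zero h1).elim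
    · exact (not_lef_succ_zero h1).elim
    · exact (not_lef_succ_zero h2).elim
    · rw [lef_succ] at h1 h2 ⊢
      refine ⟨h1.1.trans h2.1, fun i hi => ?_, h1.2.2.trans h2.2.2⟩
      obtain ⟨a, ha⟩ := h1.2.1 i hi
      have : a ≤ j := by
        rw [← B.mono.le_iff_le, ha, ← h1.2.2]
        exact A.mono.monotone hi
      rw [← ha]
      exact h2.2.1 a this
  fin b := by
    rcases exists_rr b with ⟨B, rfl⟩ | ⟨j, B, rfl⟩
    · refine (Set.finite_singleton (rr 0 B)).subset ?_
      intro a ha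
      rcases exists_rr a with ⟨A, rfl⟩ | ⟨k, A, rfl⟩
      · rfl
      · exact (not_lef_succ_zero (A := A) (B := B) (j := k) ha).elim
    · -- an approximation below `b` is given by its label and its length and a finite set
      have hfin : Set.Finite ((fun x : Lab × Set ℕ => x) '' (({B.lab} ∪ Lab.C '' Set.Iic (B.f j)) ×ˢ
          (Set.powerset (Set.Iic (B.f j))))) := by
        refine Set.Finite.image _ (Set.Finite.prod ?_ (Set.finite_Iic _).finite_subsets)
        exact (Set.finite_singleton _).union ((Set.finite_Iic _).image _)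
      let φ : Apx → Lab × Set ℕ := fun a => match a.1 with
        | none => (Lab.B 0, ∅)
        | some c => (c.1, {x | x ∈ c.2})
      refine Set.Finite.of_finite_image (f := φ) (hfin.subset ?_) ?_
      · rintro _ ⟨a, ha, rfl⟩
        rcases exists_rr a with ⟨A, rfl⟩ | ⟨k, A, rfl⟩
        · exact (not_lef_zero_succ (A := A) (B := B) (j := j) ha).elim
        · have ha' := lef_succ.1 ha
          refine ⟨φ (rr (k + 1) A), ⟨?_, ?_⟩, rfl⟩
          · show A.lab ∈ _
            rcases ha'.1 with h | ⟨m, n, h1, h2, h3⟩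
            · exact Or.inl h
            · refine Or.inr ⟨m, ?_, h1.symm⟩
              rw [Set.mem_Iic, ← ha'.2.2]
              exact low_le h1 k
          · show {x | x ∈ (List.range (k + 1)).map A.f} ⊆ _
            intro x hx
            obtain ⟨i, hi, rfl⟩ := List.mem_map.1 hx
            simp only [List.mem_range] at hi
            rw [Set.mem_Iic, ← ha'.2.2]
            exact A.mono.monotone (by omega)
      · intro a ha a' ha' haa
        rcases exists_rr a with ⟨A, rfl⟩ | ⟨k, A, rfl⟩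
        · exact (not_lef_zero_succ (A := A) (B := B) (j := j) ha).elim
        rcases exists_rr a' with ⟨A', rfl⟩ | ⟨k', A', rfl⟩
        · exact (not_lef_zero_succ (A := A') (B := B) (j := j) ha').elim
        have h1 : A.lab = A'.lab := congrArg Prod.fst haa
        have h2 : {x | x ∈ (List.range (k + 1)).map A.f} =
            {x | x ∈ (List.range (k' + 1)).map A'.f} := congrArg Prod.snd haa
        have h3 : (List.range (k + 1)).map A.f = (List.range (k' + 1)).map A'.f := by
          have hs : ∀ (l : ℕ) (C : Pt), ((List.range l).map C.f).SortedLT := by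
            intro l C
            exact (List.Pairwise.map C.f (fun a b h => C.mono h) List.pairwise_lt_range).sortedLT
          refine (hs _ _).eq_of_mem_iff (hs _ _) ?_
          intro x
          exact (Set.ext_iff.1 h2 x)
        exact Subtype.ext (by
          show apx (k + 1) A = apx (k' + 1) A'
          rw [apx_succ, apx_succ, h1, h3])
  le_iff A B := by
    constructor
    · rintro ⟨h1, h2⟩ n
      cases n with
      | zero => exact ⟨0, lef_zero⟩
      | succ k =>
        obtain ⟨j, hj⟩ := h2 ⟨k, rfl⟩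
        exact ⟨j + 1, lef_succ.2 ⟨h1, fun i _ => h2 ⟨i, rfl⟩, hj.symm⟩⟩
    · intro h
      have h' : ∀ k, LLe A.lab B.lab ∧ A.f k ∈ Set.range B.f := by
        intro k
        obtain ⟨m, hm⟩ := h (k + 1)
        cases m with
        | zero => exact (not_lef_succ_zero hm).elim
        | succ m =>
          rw [lef_succ] at hm
          exact ⟨hm.1, hm.2.1 k le_rfl⟩
      refine ⟨(h' 0).1, ?_⟩
      rintro _ ⟨k, rfl⟩
      exact (h' k).2
  initial a b c := by
    rintro ⟨A, n, m, hnm, rfl, rfl⟩ h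
    rcases exists_rr c with ⟨C, rfl⟩ | ⟨j, C, rfl⟩
    · cases m with
      | zero =>
        obtain rfl : n = 0 := by omega
        exact ⟨rr 0 C, ⟨C, 0, 0, le_rfl, rfl, rfl⟩, lef_zero⟩
      | succ m => exact (not_lef_succ_zero h).elim
    · cases m with
      | zero => exact (not_lef_zero_succ h).elim
      | succ m =>
        cases n with
        | zero => exact ⟨rr 0 C, ⟨C, 0, j + 1, Nat.zero_le _, rfl, rfl⟩, lef_zero⟩
        | succ n =>
          rw [lef_succ] at h
          obtain ⟨i, hi⟩ := h.2.1 n (by omega)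
          have hij : i ≤ j := by
            rw [← C.mono.le_iff_le, hi, ← h.2.2]
            exact A.mono.monotone (by omega)
          refine ⟨rr (i + 1) C, ⟨C, i + 1, j + 1, by omega, rfl, rfl⟩, ?_⟩
          rw [lef_succ]
          exact ⟨h.1, fun l hl => h.2.1 l (by omega), hi.symm⟩

theorem depth_zero {B A : Pt} {n : ℕ} (h : Depth lef rr B (rr 0 A) n) : n = 0 := by
  have := h.2 (show (0 : ℕ) ∈ {n | lef (rr 0 A) (rr n B)} from lef_zero (A := A) (B := B))
  omega

theorem depth_succ {B A : Pt} {k n : ℕ} (h : Depth lef rr B (rr (k + 1) A) n) :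
    ∃ j, n = j + 1 ∧ LLe A.lab B.lab ∧ (∀ i ≤ k, A.f i ∈ Set.range B.f) ∧ A.f k = B.f j := by
  have h1 : lef (rr (k + 1) A) (rr n B) := h.1
  cases n with
  | zero => exact (not_lef_succ_zero h1).elim
  | succ j => exact ⟨j, rfl, lef_succ.1 h1⟩

/-- The set `s ∪ H`, where `s` consists of the first `k + 1` members of `A`, and `H` is an infinite
set above `s`. -/
theorem exists_glue (A : Pt) (k : ℕ) {H : Set ℕ} (hH : H.Infinite) (hA : ∀ x ∈ H, A.f k < x) :
    ∃ D : Pt, rr (k + 1) D = rr (k + 1) A ∧ D.lab = A.lab ∧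
      Set.range D.f = (A.f '' Set.Iic k) ∪ H ∧ ∀ i, k < i → D.f i ∈ H := by
  obtain ⟨h, hm, hr⟩ := exists_enum hH
  have h0 : ∀ i < k + 1, A.f i < h 0 := fun i hi =>
    (A.mono.monotone (by omega : i ≤ k)).trans_lt (hA _ (hr ▸ ⟨0, rfl⟩))
  refine ⟨⟨A.lab, glue (k + 1) A.f h, glue_mono A.mono hm h0, fun m hl => ?_⟩, ?_, rfl, ?_, ?_⟩
  · rw [glue_lt (by omega)]
    exact A.low m hl
  · rw [rr_succ_inj]
    exact ⟨rfl, fun i hi => glue_lt (by omega)⟩
  · show Set.range (glue (k + 1) A.f h) = _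
    ext x
    constructor
    · rintro ⟨i, rfl⟩
      by_cases hi : i < k + 1
      · exact Or.inl ⟨i, by simpa using by omega, (glue_lt hi).symm⟩
      · right
        rw [glue_ge (by omega), ← hr]
        exact ⟨_, rfl⟩
    · rintro (⟨i, hi, rfl⟩ | hx)
      · simp only [Set.mem_Iic] at hi
        exact ⟨i, glue_lt (by omega)⟩
      · rw [← hr] at hx
        obtain ⟨i, rfl⟩ := hx
        exact ⟨i + (k + 1), by rw [glue_ge (by omega)]; simp⟩
  · intro i hi
    show glue (k + 1) A.f h i ∈ H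
    rw [glue_ge (by omega), ← hr]
    exact ⟨_, rfl⟩

theorem infinite_above (A : Pt) (n : ℕ) : {x | x ∈ Set.range A.f ∧ n < x}.Infinite := by
  have h1 := (infinite_range (A := A)).sdiff (Set.finite_Iic n)
  refine h1.mono ?_
  rintro x ⟨h2, h3⟩
  exact ⟨h2, by simpa using h3⟩

theorem a3_rr : A3 Le rr lef where
  first B a n hd A hA := by
    rcases exists_rr a with ⟨A₀, rfl⟩ | ⟨k, A₀, rfl⟩
    · exact ⟨A, le_refl' A, 0, rfl⟩
    · obtain ⟨j, rfl, h1, h2, h3⟩ := depth_succ hd
      obtain ⟨hAB, m, hm⟩ := hA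
      obtain rfl := rr_len hm
      rw [rr_succ_inj] at hm
      obtain ⟨D, hD1, hD2, hD3, -⟩ := exists_glue A₀ k (infinite_above A (A₀.f k))
        fun x hx => hx.2
      refine ⟨D, ⟨?_, ?_⟩, k + 1, hD1⟩
      · rw [hD2, hm.1]; exact h1
      · rw [hD3]
        rintro x (⟨i, hi, rfl⟩ | hx)
        · simp only [Set.mem_Iic] at hi
          obtain ⟨l, hl⟩ := h2 i hi
          have hlj : l ≤ j := by
            rw [← B.mono.le_iff_le, hl, ← h3]
            exact A₀.mono.monotone hi
          exact ⟨l, by rw [hm.2 l hlj, hl]⟩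
        · exact hx.1
  second B a n hd A hAB hne := by
    rcases exists_rr a with ⟨A₀, rfl⟩ | ⟨k, A₀, rfl⟩
    · obtain rfl := depth_zero hd
      exact ⟨A, ⟨hAB, 0, rfl⟩, hne, subset_rfl⟩
    · have hd' := hd
      obtain ⟨j, rfl, h1, h2, h3⟩ := depth_succ hd
      obtain ⟨D, hD1, hD2, hD3, -⟩ := exists_glue B j (infinite_above A (B.f j))
        fun x hx => hx.2
      obtain ⟨C, hCA, m, hm⟩ := hne
      obtain rfl := rr_len hm
      rw [rr_succ_inj] at hm
      have hDB : Le D B := by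
        refine ⟨hD2 ▸ LLe.refl _, ?_⟩
        rw [hD3]
        rintro x (⟨i, hi, rfl⟩ | hx)
        · exact ⟨i, rfl⟩
        · exact hAB.2 hx.1
      refine ⟨D, ⟨hDB, j + 1, hD1⟩, ?_, ?_⟩
      · -- the set `[a, D]` is nonempty
        have hC0 : Le C A := hCA
        obtain ⟨E, hE1, hE2, hE3, -⟩ := exists_glue A₀ k (infinite_above D (A₀.f k))
          fun x hx => hx.2
        refine ⟨E, ⟨?_, ?_⟩, k + 1, hE1⟩
        · rw [hE2, hD2]; exact h1
        · rw [hE3]
          rintro x (⟨i, hi, rfl⟩ | hx)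
          · simp only [Set.mem_Iic] at hi
            obtain ⟨l, hl⟩ := h2 i hi
            rw [hD3]
            refine Or.inl ⟨l, ?_, hl⟩
            rw [Set.mem_Iic, ← B.mono.le_iff_le, hl, ← h3]
            exact A₀.mono.monotone hi
          · exact hx.1
      · rintro E ⟨hED, m', hm'⟩
        obtain rfl := rr_len hm'
        refine ⟨⟨?_, ?_⟩, k + 1, hm'⟩
        · rw [rr_succ_inj] at hm'
          rw [hm'.1, ← hm.1]
          exact hCA.1
        · rw [rr_succ_inj] at hm'
          rintro _ ⟨i, rfl⟩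
          by_cases hi : i ≤ k
          · rw [hm'.2 i hi, ← hm.2 i hi]
            exact hCA.2 ⟨i, rfl⟩
          · have hlt : A₀.f k < E.f i := by
              rw [← hm'.2 k le_rfl]
              exact E.mono (by omega)
            have := hED.2 ⟨i, rfl⟩
            rw [hD3] at this
            rcases this with ⟨l, hl, hl'⟩ | hx
            · exfalso
              simp only [Set.mem_Iic] at hl
              have : B.f l ≤ B.f j := B.mono.monotone hl
              omega
            · exact hx.1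

theorem exists_infinite_colour {X : Set ℕ} (hX : X.Infinite) (c : ℕ → Prop) :
    ∃ H ⊆ X, H.Infinite ∧ ((∀ x ∈ H, c x) ∨ ∀ x ∈ H, ¬ c x) := by
  by_cases h : {x | x ∈ X ∧ c x}.Infinite
  · exact ⟨_, fun x hx => hx.1, h, Or.inl fun x hx => hx.2⟩
  · refine ⟨{x | x ∈ X ∧ ¬ c x}, fun x hx => hx.1, ?_, Or.inr fun x hx => hx.2⟩
    intro h'
    apply hX
    refine ((Set.not_infinite.1 h).union h').subset ?_
    intro x hx
    by_cases hc : c x
    · exact Or.inl ⟨hx, hc⟩
    · exact Or.inr ⟨hx, hc⟩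

theorem a4_rr : A4 Le rr lef := by
  intro B a n hd k hk O hO
  rcases exists_rr a with ⟨A₀, rfl⟩ | ⟨l, A₀, rfl⟩
  · obtain rfl := depth_zero hd
    obtain ⟨A₁, hA₁⟩ := hk
    obtain rfl := rr_len hA₁
    -- pass to a label `(C, m)`
    obtain ⟨m, hm⟩ : ∃ m, LLe (Lab.C m) B.lab := by
      cases hB : B.lab with
      | B n => exact ⟨n, Or.inr ⟨n, n, rfl, rfl, le_rfl⟩⟩
      | C m => exact ⟨m, Or.inl rfl⟩
    obtain ⟨H, hHB, hH, hHc⟩ := exists_infinite_colour (infinite_above B m)
      (fun x => ∃ D : Pt, D.lab = Lab.C m ∧ D.f 0 = x ∧ rr 1 D ∈ O)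
    obtain ⟨h, hmono, hr⟩ := exists_enum hH
    let A : Pt := ⟨Lab.C m, h, hmono, fun m' hm' => by
      cases hm'
      exact (hHB (hr ▸ ⟨0, rfl⟩)).2.le⟩
    refine ⟨A, ⟨⟨hm, ?_⟩, 0, rfl⟩, ?_⟩
    · show Set.range h ⊆ _
      rw [hr]
      exact fun x hx => (hHB hx).1
    · rcases hHc with hHc | hHc
      · left
        rintro _ ⟨E, ⟨hEA, -⟩, rfl⟩
        have hE : E.f 0 ∈ H := by
          have := hEA.2 ⟨0, rfl⟩
          rwa [show Set.range A.f = H from hr] at this
        obtain ⟨D, hD1, hD2, hD3⟩ := hHc _ hE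
        have : rr 1 E = rr 1 D := by
          rw [rr_succ_inj]
          refine ⟨by rw [hD1]; exact LLe.of_C hEA.1, fun i hi => ?_⟩
          obtain rfl : i = 0 := by omega
          exact hD2.symm
        rw [show (0 + 1) = 1 from rfl, this]
        exact hD3
      · right
        rintro _ ⟨E, ⟨hEA, -⟩, rfl⟩ hO'
        have hE : E.f 0 ∈ H := by
          have := hEA.2 ⟨0, rfl⟩
          rwa [show Set.range A.f = H from hr] at this
        exact hHc _ hE ⟨E, LLe.of_C hEA.1, rfl, hO'⟩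
  · obtain ⟨A₁, hA₁⟩ := hk
    obtain rfl := rr_len hA₁
    obtain ⟨j, rfl, h1, h2, h3⟩ := depth_succ hd
    obtain ⟨H, hHB, hH, hHc⟩ := exists_infinite_colour (infinite_above B (B.f j))
      (fun x => ∃ D : Pt, rr (l + 1) D = rr (l + 1) A₀ ∧ D.f (l + 1) = x ∧ rr (l + 1 + 1) D ∈ O)
    obtain ⟨A, hA1, hA2, hA3, hA4⟩ := exists_glue B j hH fun x hx => (hHB hx).2
    have hAB : Le A B := by
      refine ⟨hA2 ▸ LLe.refl _, ?_⟩
      rw [hA3]
      rintro x (⟨i, hi, rfl⟩ | hx)
      · exact ⟨i, rfl⟩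
      · exact (hHB hx).1
    have key : ∀ E ∈ Basic Le rr (rr (l + 1) A₀) A, rr (l + 1) E = rr (l + 1) A₀ ∧
        E.f (l + 1) ∈ H := by
      rintro E ⟨hEA, m, hm⟩
      obtain rfl := rr_len hm
      refine ⟨hm, ?_⟩
      have hEH := hEA.2 ⟨l + 1, rfl⟩
      rw [hA3] at hEH
      rcases hEH with ⟨i, hi, hi'⟩ | hx
      · exfalso
        simp only [Set.mem_Iic] at hi
        have h4 : B.f i ≤ B.f j := B.mono.monotone hi
        have h5 : E.f l < E.f (l + 1) := E.mono (by omega)
        rw [rr_succ_inj] at hm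
        rw [hm.2 l le_rfl, h3] at h5
        omega
      · exact hx
    refine ⟨A, ⟨hAB, j + 1, hA1⟩, ?_⟩
    rcases hHc with hHc | hHc
    · left
      rintro _ ⟨E, hE, rfl⟩
      obtain ⟨hE1, hE2⟩ := key E hE
      obtain ⟨D, hD1, hD2, hD3⟩ := hHc _ hE2
      have : rr (l + 1 + 1) E = rr (l + 1 + 1) D := by
        rw [← hD1, rr_succ_inj] at hE1
        rw [rr_succ_inj]
        refine ⟨hE1.1, fun i hi => ?_⟩
        rcases Nat.lt_or_ge l i with h | h
        · obtain rfl : i = l + 1 := by omega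
          exact hD2.symm
        · exact hE1.2 i h
      rw [this]
      exact hD3
    · right
      rintro _ ⟨E, hE, rfl⟩ hO'
      obtain ⟨hE1, hE2⟩ := key E hE
      exact hHc _ hE2 ⟨E, hE1, rfl, hO'⟩

theorem closed_rr : letI : TopologicalSpace Apx := ⊥
    IsClosed (Set.range fun (A : Pt) (n : ℕ) => rr n A) := by
  let _ : TopologicalSpace Apx := ⊥
  have : DiscreteTopology Apx := ⟨rfl⟩
  rw [← closure_subset_iff_isClosed]
  intro x hx
  have hN : ∀ N : ℕ, ∃ A : Pt, ∀ n ≤ N, rr n A = x n := by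
    intro N
    have ho : IsOpen (Set.pi (Set.Iic N) fun n => ({x n} : Set Apx)) :=
      isOpen_set_pi (Set.finite_Iic N) fun n _ => isOpen_discrete _
    obtain ⟨y, hy1, A, rfl⟩ := mem_closure_iff.1 hx _ ho (fun n _ => rfl)
    exact ⟨A, fun n hn => hy1 n hn⟩
  choose A hA using hN
  have hlab : ∀ N, 1 ≤ N → (A N).lab = (A 1).lab := by
    intro N hN
    exact (rr_succ_inj.1 ((hA N 1 hN).trans (hA 1 1 le_rfl).symm)).1
  have hf : ∀ k N, k < N → (A N).f k = (A (k + 1)).f k := by
    intro k N hkN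
    exact (rr_succ_inj.1 ((hA N (k + 1) hkN).trans (hA (k + 1) (k + 1) le_rfl).symm)).2 k le_rfl
  refine ⟨⟨(A 1).lab, fun k => (A (k + 1)).f k, ?_, ?_⟩, ?_⟩
  · apply strictMono_nat_of_lt_succ
    intro k
    rw [← hf k (k + 1 + 1) (by omega)]
    exact (A (k + 1 + 1)).mono (Nat.lt_succ_self k)
  · exact (A 1).low
  · funext n
    show rr n _ = x n
    rw [← hA n n le_rfl]
    cases n with
    | zero => rfl
    | succ n =>
      rw [rr_succ_inj]
      exact ⟨(hlab _ (by omega)).symm, fun i hi => (hf i (n + 1) (by omega)).symm⟩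

theorem top_rr : TopRamsey Le rr where
  nonempty := ⟨⟨Lab.B 0, id, strictMono_id, fun m h => by cases h⟩⟩
  refl := le_refl'
  trans _ _ _ := le_trans'
  a1 := a1_rr
  a234 := ⟨lef, a2_rr, a3_rr, a4_rr⟩
  closed := closed_rr

theorem les_refl (A : Pt) : Les A A := ⟨LLe.refl _, by simp⟩

theorem les_trans {A B C : Pt} (h1 : Les A B) (h2 : Les B C) : Les A C := by
  refine ⟨h1.1.trans h2.1, (h1.2.union h2.2).subset ?_⟩
  rintro x ⟨hx1, hx2⟩
  by_cases hx : x ∈ Set.range B.f
  · exact Or.inr ⟨hx, hx2⟩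
  · exact Or.inl ⟨hx1, hx⟩

theorem les_of_le {A B : Pt} (h : Le A B) : Les A B :=
  ⟨h.1, by rw [Set.sdiff_eq_empty.2 h.2]; exact Set.finite_empty⟩

/-- A member of the space with a given label and a given set, up to finitely many elements. -/
theorem exists_pt (l : Lab) {H : Set ℕ} (hH : H.Infinite) :
    ∃ D : Pt, D.lab = l ∧ Set.range D.f ⊆ H ∧ (H \ Set.range D.f).Finite := by
  obtain ⟨m, hm⟩ : ∃ m, ∀ m', l = Lab.C m' → m' ≤ m := by
    cases l with
    | B n => exact ⟨0, fun m' h => by cases h⟩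
    | C m => exact ⟨m, fun m' h => by cases h; rfl⟩
  have h1 : {x | x ∈ H ∧ m < x}.Infinite := by
    refine (hH.sdiff (Set.finite_Iic m)).mono ?_
    rintro x ⟨h2, h3⟩
    exact ⟨h2, by simpa using h3⟩
  obtain ⟨h, hmono, hr⟩ := exists_enum h1
  refine ⟨⟨l, h, hmono, fun m' hl => (hm m' hl).trans ?_⟩, rfl, ?_, ?_⟩
  · exact (show h 0 ∈ {x | x ∈ H ∧ m < x} from hr ▸ ⟨0, rfl⟩).2.le
  · show Set.range h ⊆ H
    rw [hr]; exact fun x hx => hx.1
  · show (H \ Set.range h).Finite
    rw [hr]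
    refine (Set.finite_Iic m).subset ?_
    rintro x ⟨hx1, hx2⟩
    by_contra hx3
    exact hx2 ⟨hx1, by simpa using hx3⟩

theorem sigma_les (A : ℕ → Pt) (hA : ∀ n, Les (A (n + 1)) (A n)) : ∃ B, ∀ n, Les B (A n) := by
  have hle : ∀ m n, m ≤ n → Les (A n) (A m) := by
    intro m n hmn
    induction n, hmn using Nat.le_induction with
    | base => exact les_refl _
    | succ n _ ih => exact les_trans (hA n) ih
  -- the label
  obtain ⟨l, hl⟩ : ∃ l, ∀ n, LLe l (A n).lab := by
    by_cases h : ∃ n m, (A n).lab = Lab.C m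
    · obtain ⟨n, m, hn⟩ := h
      refine ⟨Lab.C m, fun k => ?_⟩
      rcases le_total k n with hk | hk
      · rw [← hn]; exact (hle k n hk).1
      · have := (hle n k hk).1
        rw [hn] at this
        rw [this.of_C]; exact LLe.refl _
    · push Not at h
      refine ⟨(A 0).lab, fun k => ?_⟩
      have := (hle 0 k (Nat.zero_le _)).1
      cases hk : (A k).lab with
      | C m => exact absurd hk (h k m)
      | B m =>
        rw [hk] at this
        rw [this.of_B]; exact LLe.refl _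
  have hfreq : ∀ n, ∃ᶠ k in Filter.atTop, ∀ i ≤ n, k ∈ Set.range (A i).f := by
    intro n
    rw [Nat.frequently_atTop_iff_infinite]
    have h1 : (Set.range (A n).f \ ⋃ i ∈ Set.Iic n, (Set.range (A n).f \ Set.range (A i).f)).Infinite :=
      infinite_range.sdiff ((Set.finite_Iic n).biUnion fun i hi => (hle i n hi).2)
    refine h1.mono ?_
    rintro x ⟨hx1, hx2⟩ i hi
    by_contra hx3
    exact hx2 (Set.mem_biUnion (show i ∈ Set.Iic n from hi) ⟨hx1, hx3⟩)
  obtain ⟨φ, hφ1, hφ2⟩ := Filter.extraction_forall_of_frequently hfreq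
  obtain ⟨D, hD1, hD2, -⟩ := exists_pt l (Set.infinite_range_of_injective hφ1.injective)
  refine ⟨D, fun n => ⟨hD1 ▸ hl n, ?_⟩⟩
  refine ((Set.finite_Iio n).image φ).subset ?_
  rintro x ⟨hx1, hx2⟩
  obtain ⟨k, rfl⟩ := hD2 hx1
  refine ⟨k, ?_, rfl⟩
  rw [Set.mem_Iio]
  by_contra hk
  exact hx2 (hφ2 k n (by omega))

/-- Compatibility is the same for the two orders. -/
theorem compat_iff (A B : Pt) : (∃ D, Les D A ∧ Les D B) ↔ ∃ D, Le D A ∧ Le D B := by
  constructor
  · rintro ⟨D, h1, h2⟩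
    have h3 : (Set.range D.f \ ((Set.range D.f \ Set.range A.f) ∪
        (Set.range D.f \ Set.range B.f))).Infinite := infinite_range.sdiff (h1.2.union h2.2)
    obtain ⟨E, hE1, hE2, -⟩ := exists_pt D.lab h3
    refine ⟨E, ⟨hE1 ▸ h1.1, fun x hx => ?_⟩, ⟨hE1 ▸ h2.1, fun x hx => ?_⟩⟩
    · by_contra hx'
      exact (hE2 hx).2 (Or.inl ⟨(hE2 hx).1, hx'⟩)
    · by_contra hx'
      exact (hE2 hx).2 (Or.inr ⟨(hE2 hx).1, hx'⟩)
  · rintro ⟨D, h1, h2⟩
    exact ⟨D, les_of_le h1, les_of_le h2⟩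

theorem sepLE_iff (A B : Pt) : SepLE Le A B ↔ SepLE Les A B := by
  constructor
  · intro h C hC
    rw [compat_iff]
    obtain ⟨D, hD1, hD2⟩ := (compat_iff C A).1 ⟨C, les_refl C, hC⟩
    obtain ⟨E, hE1, hE2⟩ := h D hD2
    exact ⟨E, le_trans' hE1 hD1, hE2⟩
  · intro h C hC
    rw [← compat_iff]
    exact h C (les_of_le hC)

theorem same_les : SameQuotient Le Les := by
  have hset : ∀ A B, (sepSetoid Le le_refl' fun _ _ _ => le_trans') A B ↔
      (sepSetoid Les les_refl fun _ _ _ => les_trans) A B := fun A B =>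
    and_congr (sepLE_iff A B) (sepLE_iff B A)
  let e : Quotient (sepSetoid Le le_refl' fun _ _ _ => le_trans') ≃
      Quotient (sepSetoid Les les_refl fun _ _ _ => les_trans) :=
    Quotient.congr (Equiv.refl Pt) hset
  refine ⟨le_refl', fun _ _ _ => le_trans', les_refl, fun _ _ _ => les_trans, e, ?_⟩
  intro x y
  constructor
  · rintro ⟨A, B, rfl, rfl, h⟩
    exact ⟨A, B, rfl, rfl, (sepLE_iff A B).1 h⟩
  · rintro ⟨A, B, hx, hy, h⟩
    exact ⟨A, B, e.injective hx, e.injective hy, (sepLE_iff A B).2 h⟩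

theorem sigmaClosed : SigmaClosedTopRamsey Le Les rr where
  top := top_rr
  refl := les_refl
  trans _ _ _ := les_trans
  coarsens _ _ := les_of_le
  sigma := sigma_les
  same := same_les

/-- In a `σ`-closed order a countable chain has a pseudointersection. -/
theorem not_tower_of_countable {F : Set Pt} (hF : F.Countable) : ¬ Tower Les F := by
  rintro ⟨h1, h2⟩
  apply h2
  rcases F.eq_empty_or_nonempty with rfl | hne
  · exact ⟨⟨Lab.B 0, id, strictMono_id, fun m h => by cases h⟩, fun X hX => hX.elim⟩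
  obtain ⟨x, rfl⟩ := hF.exists_eq_range hne
  classical
  let G : ℕ → ℕ := fun n => Nat.rec 0 (fun n g => if Les (x (n + 1)) (x g) then n + 1 else g) n
  have hG : ∀ n, G (n + 1) = if Les (x (n + 1)) (x (G n)) then n + 1 else G n := fun n => rfl
  have hG1 : ∀ n, Les (x (G (n + 1))) (x (G n)) := by
    intro n
    rw [hG]
    split_ifs with h
    · exact h
    · exact les_refl _
  have hG2 : ∀ n, Les (x (G n)) (x n) := by
    intro n
    cases n with
    | zero => exact les_refl _
    | succ n =>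
      rw [hG]
      split_ifs with h
      · exact les_refl _
      · exact (h1 _ ⟨n + 1, rfl⟩ _ ⟨G n, rfl⟩).resolve_left h
  obtain ⟨B, hB⟩ := sigma_les (fun n => x (G n)) hG1
  refine ⟨B, ?_⟩
  rintro _ ⟨n, rfl⟩
  exact les_trans (hB n) (hG2 n)

theorem exists_tower : ∃ F : Set Pt, Tower Les F := by
  -- a maximal chain of members with the label `(C, 0)`
  let r : {A : Pt // A.lab = Lab.C 0} → {A : Pt // A.lab = Lab.C 0} → Prop := fun A B => Les A.1 B.1
  have hmax := maxChain_spec (r := r)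
  refine ⟨Subtype.val '' (maxChain r), ?_, ?_⟩
  · rintro _ ⟨A, hA, rfl⟩ _ ⟨B, hB, rfl⟩
    by_cases hAB : A = B
    · subst hAB; exact Or.inl (les_refl _)
    · exact hmax.1 hA hB hAB
  · rintro ⟨Y, hY⟩
    have hne : (maxChain r).Nonempty := by
      by_contra hemp
      rw [Set.not_nonempty_iff_eq_empty] at hemp
      obtain ⟨D, hD, -⟩ := exists_pt (Lab.C 0) Set.infinite_univ
      have h1 : IsChain r {⟨D, hD⟩} := IsChain.singleton
      have h2 := hmax.2 h1 (by rw [hemp]; exact Set.empty_subset _)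
      rw [hemp] at h2
      exact absurd h2.symm (Set.singleton_ne_empty _)
    obtain ⟨A₀, hA₀⟩ := hne
    have hYl : Y.lab = Lab.C 0 := by
      have := (hY _ ⟨A₀, hA₀, rfl⟩).1
      rw [A₀.2] at this
      exact this.of_C
    -- every second element of `Y`
    let Z : Pt := ⟨Lab.C 0, fun n => Y.f (2 * n), fun a b h => Y.mono (by omega),
      fun m hm => by cases hm; exact Nat.zero_le _⟩
    have hZY : Les Z Y := by
      apply les_of_le
      refine ⟨by rw [hYl]; exact LLe.refl _, ?_⟩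
      rintro _ ⟨n, rfl⟩
      exact ⟨2 * n, rfl⟩
    have hYZ : ¬ Les Y Z := by
      rintro ⟨-, h⟩
      have h1 : (Set.range fun n => Y.f (2 * n + 1)).Infinite :=
        Set.infinite_range_of_injective fun a b hab => by
          have := Y.mono.injective hab
          omega
      apply h1
      refine h.subset ?_
      rintro _ ⟨n, rfl⟩
      refine ⟨⟨_, rfl⟩, ?_⟩
      rintro ⟨m, hm⟩
      have := Y.mono.injective hm
      omega
    let Z' : {A : Pt // A.lab = Lab.C 0} := ⟨Z, rfl⟩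
    have hZ : ∀ A ∈ maxChain r, Les Z A.1 := fun A hA => les_trans hZY (hY _ ⟨A, hA, rfl⟩)
    have hZm : Z' ∈ maxChain r := by
      have h1 : IsChain r (insert Z' (maxChain r)) :=
        hmax.1.insert fun b hb _ => Or.inl (hZ b hb)
      rw [hmax.2 h1 (Set.subset_insert _ _)]
      exact Set.mem_insert _ _
    exact hYZ (hY _ ⟨Z', hZm, rfl⟩)

/-- The members with label `(B, n)` and set `ω`. -/
def bb (n : ℕ) : Pt := ⟨Lab.B n, id, strictMono_id, fun m h => by cases h⟩

theorem sfip_bb : SFIP Les (Set.range bb) := by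
  intro G hG hfin
  have h1 : (bb ⁻¹' G).Finite := hfin.preimage (by
    intro a _ b _ h
    have := congrArg Pt.lab h
    simpa [bb] using this)
  obtain ⟨N, hN⟩ := h1.bddAbove
  obtain ⟨D, hD, -⟩ := exists_pt (Lab.C N) Set.infinite_univ
  refine ⟨D, fun X hX => ?_⟩
  obtain ⟨n, rfl⟩ := hG hX
  refine ⟨?_, ?_⟩
  · rw [hD]
    exact Or.inr ⟨N, n, rfl, rfl, hN hX⟩
  · simp [bb]

theorem not_pseudo_bb : ¬ ∃ Y, Pseudo Les (Set.range bb) Y := by
  rintro ⟨Y, hY⟩
  cases hl : Y.lab with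
  | B n =>
    have := (hY _ ⟨n + 1, rfl⟩).1
    rw [hl] at this
    have := this.of_B
    simp [bb] at this
  | C m =>
    have := (hY _ ⟨m + 1, rfl⟩).1
    rw [hl] at this
    rcases this with h | ⟨m', n', h1, h2, h3⟩
    · cases h
    · cases h1
      simp only [bb, Lab.B.injEq] at h2
      omega

theorem exists_pseudo_of_finite {F : Set Pt} (hF : F.Finite) (h : SFIP Les F) :
    ∃ Y, Pseudo Les F Y := h F subset_rfl hF

theorem pNum_eq : pNum Les = ℵ₀ := by
  apply le_antisymm
  · refine (csInf_le' (show #(Set.range bb) ∈ {κ | ∃ F : Set Pt, #F = κ ∧ SFIP Les F ∧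
      ¬ ∃ Y, Pseudo Les F Y} from ⟨Set.range bb, rfl, sfip_bb, not_pseudo_bb⟩)).trans ?_
    exact Cardinal.mk_range_le.trans (by simp)
  · refine le_csInf ⟨_, Set.range bb, rfl, sfip_bb, not_pseudo_bb⟩ ?_
    rintro κ ⟨F, rfl, h1, h2⟩
    by_contra hlt
    rw [not_le, Cardinal.lt_aleph0_iff_set_finite] at hlt
    exact h2 (exists_pseudo_of_finite hlt h1)

theorem le_tNum : ℵ_ 1 ≤ tNum Les := by
  obtain ⟨F, hF⟩ := exists_tower
  refine le_csInf ⟨_, F, rfl, hF⟩ ?_
  rintro κ ⟨F, rfl, h⟩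
  rw [← Cardinal.succ_aleph0, Order.succ_le_iff]
  by_contra hlt
  rw [not_lt, Cardinal.le_aleph0_iff_set_countable] at hlt
  exact not_tower_of_countable hlt h

/-- Q1: there is a `σ`-closed topological Ramsey space with `𝔭_R = ℵ₀ < ℵ₁ ≤ 𝔱_R`. -/
theorem result : ∃ (R AR : Type) (le les : R → R → Prop) (r : ℕ → R → AR),
    SigmaClosedTopRamsey le les r ∧
    (∃ F : Set R, SFIP les F ∧ ¬ ∃ Y, Pseudo les F Y) ∧ (∃ F : Set R, Tower les F) ∧
    pNum les = ℵ₀ ∧ ℵ_ 1 ≤ tNum les ∧ pNum les < tNum les := by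
  refine ⟨Pt, Apx, Le, Les, rr, sigmaClosed, ⟨_, sfip_bb, not_pseudo_bb⟩, exists_tower, pNum_eq,
    le_tNum, ?_⟩
  rw [pNum_eq]
  exact (Cardinal.aleph0_lt_aleph_one).trans_le le_tNum

end Pool.Agent.Results.MP_fdc1ac_lc.PLessT
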